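import Pool.Agent.Q231.LMD.Stubs
import Pool.Agent.H49R2.PC.V4

/-!
# Local metric dimension of planar graphs: task P2
-/

set_option autoImplicit false

namespace Pool.Agent.Q186.LMD

open Pool.Agent.NPC Pool.Agent.NPC.Cnt Pool.Agent.H49R2.PC Pool.Agent.Q231.LMD

variable {α : Type} [TEnc α]

@[fun_prop]
theorem poly_tabE {t : α → ℕ} (ht : Poly t) : Poly (fun a => tabE (t a)) := by
  unfold tabE
  fun_prop

@[fun_prop]
theorem poly_sh {p : α → Pt} {o : α → ℕ × ℕ × ℕ} (hp : Poly p) (ho : Poly o) :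
    Poly (fun a => sh (p a) (o a)) := by
  unfold sh
  fun_prop

@[fun_prop]
theorem poly_spL {L : α → List Pt} {p : α → Pt} {t : α → ℕ} (hL : Poly L) (hp : Poly p)
    (ht : Poly t) : Poly (fun a => spL (L a) (p a) (t a)) := by
  unfold spL
  fun_prop

@[fun_prop]
theorem poly_pairIdx {L : α → List Pt} {s : α → Pt} (hL : Poly L) (hs : Poly s) :
    Poly (fun a => pairIdx (L a) (s a)) := by
  unfold pairIdx
  fun_prop

theorem poly_idx {L : α → List Pt} {K : α → List (Pt × ℕ)} (hL : Poly L) (hK : Poly K) :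
    Poly (fun a => idx (L a) (K a)) := by
  unfold idx
  fun_prop

theorem P2_ok : S_P2 := by
  unfold S_P2 EL
  refine NPC.Poly.map (F := fun (x : List Pt × List (Pt × ℕ)) (i : Pt × ℕ) => spL x.1 i.1 i.2)
    (poly_idx (NPC.Poly.fst NPC.Poly.id) (NPC.Poly.snd NPC.Poly.id)) ?_
  fun_prop

end Pool.Agent.Q186.LMD
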